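import Pool.Agent.helper23.PL.SpecE

/-! Row eFST of block E of project pl (see Pool/Agent/helper23/PL/SpecE.lean). -/

set_option autoImplicit false

open Complex Metric Set Filter Topology MeasureTheory
open Pool.Agent.helper98.ILF
open WP (it)
open HY (UD T S hd UN RM)
open PM

noncomputable section

namespace PL

theorem eFST_dit (f : Polynomial ℂ) : ∀ s : ℕ, Differentiable ℂ (it f s) := by
  intro s
  induction s with
  | zero => exact differentiable_id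
  | succ s ih =>
    have e : it f (s + 1) = fun z => f.eval (it f s z) := by
      funext z
      simp [it, Function.iterate_succ_apply']
    rw [e]
    exact f.differentiable.comp ih

/-- the derivative of a composition of limits. -/
theorem eFST_chain {Ω : Set ℂ} {G G' B : ℂ → ℂ} (hΩ : IsOpen Ω) (hB : DifferentiableOn ℂ B UD) (hG : DifferentiableOn ℂ G Ω)
    (hm : MapsTo G Ω UD) (h : ∀ ζ ∈ Ω, G' ζ = B (G ζ)) {z : ℂ} (hz : z ∈ Ω) : deriv G' z = deriv B (G z) * deriv G z := by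
  have e1 : G' =ᶠ[𝓝 z] fun ζ => B (G ζ) := by
    filter_upwards [hΩ.mem_nhds hz] with ζ hζ using h ζ hζ
  rw [e1.deriv_eq]
  have h1 : HasDerivAt B (deriv B (G z)) (G z) := (hB.differentiableAt (isOpen_ball.mem_nhds (hm hz))).hasDerivAt
  have h2 : HasDerivAt G (deriv G z) z := (hG.differentiableAt (hΩ.mem_nhds hz)).hasDerivAt
  exact (h1.comp z h2).deriv

/-- the derivative along a deck transformation. -/
theorem eFST_deck {Ω : Set ℂ} {G : ℂ → ℂ} (hΩ : IsOpen Ω) (hG : DifferentiableOn ℂ G Ω) {g : Equiv.Perm ℂ} (hg : g ∈ DK Ω G)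
    {z : ℂ} (hz : z ∈ Ω) (hd : deriv G z ≠ 0) : g z ∈ Ω ∧ G (g z) = G z ∧ deriv G (g z) ≠ 0 := by
  obtain ⟨⟨a, b, ha, h1⟩, h2, h3⟩ := hg
  have hgz : g z ∈ Ω := (h2 z).2 hz
  refine ⟨hgz, h3 z hz, fun h0 => hd ?_⟩
  have e1 : G =ᶠ[𝓝 z] fun ζ => G (g ζ) := by
    filter_upwards [hΩ.mem_nhds hz] with ζ hζ using (h3 ζ hζ).symm
  rw [e1.deriv_eq]
  have k1 : HasDerivAt G (deriv G (g z)) (g z) := (hG.differentiableAt (hΩ.mem_nhds hgz)).hasDerivAt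
  have k2 : HasDerivAt (fun ζ => g ζ) (a : ℂ) z := by
    have : (fun ζ => g ζ) = fun ζ => (a : ℂ) * ζ + b := funext h1
    rw [this]
    simpa using ((hasDerivAt_id z).const_mul (a : ℂ)).add_const b
  have := (k1.comp z k2).deriv
  rw [h0, zero_mul] at this
  exact this

theorem eFST (heCMP : eCMP_stmt) (heBJ : eBJ_stmt) (hFRS : FRS_stmt) (heHUR : eHUR_stmt) (heINJ : eINJ_stmt) (hePG : ePG_stmt)
    (hEXT : EXT_stmt) (heRIG : eRIG_stmt) (hTDF : TDF_stmt) (hVCF : VCF_stmt) : eFST_stmt := by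
  intro f R δ e₀ d₀ k₀ hS μ x hT U a n t hU ha hV χ hχ w G hw hTL g hg hg1 hgf
  obtain ⟨H, hH⟩ : ∃ H : ℕ → ℕ, H = fun j => n j + t j := ⟨_, rfl⟩
  have hPG := hePG f R δ e₀ d₀ k₀ hS μ x hT U a n t hU ha hV χ hχ
  rw [← hH] at hχ hTL hPG ⊢
  have hwH : ∀ᶠ j in (U : Filter ℕ), t j ≤ H j := by rw [hH]; exact Eventually.of_forall fun j => Nat.le_add_left _ _
  have hx := hT.mem
  have hER : ER f R := ⟨hS.R1, hS.esc⟩
  obtain ⟨hRM, hDD, -, hΩo, h0Ω, -, hK, -⟩ := hFRS f R δ e₀ d₀ k₀ hS x hx U H χ hχ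
  obtain ⟨Ω, hΩ⟩ : ∃ Ω, Ω = χ '' UD := ⟨_, rfl⟩
  have hcmp := heCMP f R δ e₀ d₀ k₀ hS x hx U H χ hχ
  have hTLcv : ∀ (w : ℕ → ℕ) (G : ℂ → ℂ), TL f R x U H χ w G → TendstoLocallyUniformlyOn (fun j => GJ f R x (H j) (w j)) G U Ω := by
    intro w G h; rw [hΩ]; exact h.cv
  rw [← hΩ] at hg hgf hPG hRM hDD hΩo h0Ω hK hcmp ⊢
  have hPGG := hPG w G hw hTL
  obtain ⟨z₁, hz₁, hd₁⟩ := hPGG.nc
  obtain ⟨hz₂, hG₂, hd₂⟩ := eFST_deck hΩo hPGG.dif hg hz₁ hd₁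
  obtain ⟨z₂, hz₂d⟩ : ∃ z₂, z₂ = g z₁ := ⟨_, rfl⟩
  have hne : z₂ ≠ z₁ := by rw [hz₂d]; exact hgf z₁ hz₁
  rw [← hz₂d] at hz₂ hG₂ hd₂
  -- points of the level
  have hV1 : ∀ᶠ j in (U : Filter ℕ), PZ f R x (H j) z₁ ∈ VC f R (H j) x := by
    filter_upwards [hK {z₁} (by simpa using hz₁) isCompact_singleton] with j hj using hj z₁ rfl
  obtain ⟨r, hr, hrΩ⟩ : ∃ r > 0, closedBall z₂ r ⊆ Ω := nhds_basis_closedBall.mem_iff.1 (hΩo.mem_nhds hz₂)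
  have hVr : ∀ᶠ j in (U : Filter ℕ), ∀ ζ ∈ closedBall z₂ r, PZ f R x (H j) ζ ∈ VC f R (H j) x := hK _ hrΩ (isCompact_closedBall _ _)
  have hxV : ∀ k, x ∈ VK f R k := hS.Jv x hx
  -- differentiability of the maps
  have hdG : ∀ᶠ j in (U : Filter ℕ), DifferentiableOn ℂ (GJ f R x (H j) (w j)) (ball z₂ r) := by
    filter_upwards [hVr, hTL.le] with j hj hwj
    obtain ⟨-, hxW, -, -, -, -, hmap, -⟩ := hVCF f R hS.deg hER (H j) x (hxV _)
    have hq : it f (w j) x ∈ VC f R (H j - w j) (it f (w j) x) := hmap (w j) hwj hxW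
    have hqV : it f (w j) x ∈ VK f R (H j - w j) := connectedComponentIn_subset _ _ hq
    obtain ⟨hDW', -, -⟩ := hVCF f R hS.deg hER (H j - w j) _ hqV
    obtain ⟨-, -, hWt'⟩ := hTDF _ hDW'
    obtain ⟨-, -, -, -, hcd, -, -⟩ := hWt' _ hq
    have h1 : Differentiable ℂ (fun ζ => it f (w j) (PZ f R x (H j) ζ)) := by
      apply (eFST_dit f (w j)).comp
      unfold PZ
      fun_prop
    exact hcd.comp h1.differentiableOn (fun ζ hζ => hmap (w j) hwj (hj ζ (ball_subset_closedBall hζ)))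
  -- Hurwitz
  have hnc : ¬ ∀ᶠ ζ in 𝓝 z₂, G ζ = G z₂ := by
    intro h
    apply hd₂
    have h' : G =ᶠ[𝓝 z₂] fun _ => G z₂ := h
    rw [h'.deriv_eq]
    simp
  have hv1 : Tendsto (fun j => GJ f R x (H j) (w j) z₁) U (𝓝 (G z₂)) := by
    rw [hG₂]; exact (hTLcv w G hTL).tendsto_at hz₁
  obtain ⟨ζ, hζt, hζe⟩ := heHUR U (ball z₂ r) (fun j => GJ f R x (H j) (w j)) G z₂ _ hU isOpen_ball (mem_ball_self hr) hdG
    ((hTLcv w G hTL).mono (ball_subset_closedBall.trans hrΩ)) hnc hv1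
  -- facts at the time w
  have hVζ : ∀ᶠ j in (U : Filter ℕ), PZ f R x (H j) (ζ j) ∈ VC f R (H j) x := by
    filter_upwards [hVr, hζe] with j h1 h2 using h1 _ (ball_subset_closedBall h2.1)
  have hbj := heBJ f R δ e₀ d₀ k₀ hS x hx
  have hfw : ∀ᶠ j in (U : Filter ℕ), it f (w j) (PZ f R x (H j) (ζ j)) = it f (w j) (PZ f R x (H j) z₁) := by
    filter_upwards [hVζ, hV1, hζe, hTL.le] with j h1 h2 h3 h4
    obtain ⟨-, -, -, -, hB⟩ := hbj (H j) (w j) (w j) le_rfl h4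
    rw [← (hB _ h1).2.1, ← (hB _ h2).2.1]
    have : GJ f R x (H j) (w j) (ζ j) = GJ f R x (H j) (w j) z₁ := h3.2
    rw [this]
  have hPne : ∀ᶠ j in (U : Filter ℕ), PZ f R x (H j) (ζ j) ≠ PZ f R x (H j) z₁ := by
    filter_upwards [hζt.eventually_ne hne] with j hj h
    apply hj
    obtain ⟨hDW, hxW, -⟩ := hVCF f R hS.deg hER (H j) x (hxV _)
    obtain ⟨-, hc, -⟩ := (hTDF _ hDW).2.2 x hxW
    have hc' : (cr (VC f R (H j) x) x : ℂ) ≠ 0 := by exact_mod_cast hc.ne'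
    unfold PZ at h
    exact mul_left_cancel₀ hc' (add_left_cancel h)
  -- the first time
  classical
  obtain ⟨w', hw'⟩ : ∃ w' : ℕ → ℕ, ∀ᶠ j in (U : Filter ℕ), w' j < w j ∧
      it f (w' j + 1) (PZ f R x (H j) (ζ j)) = it f (w' j + 1) (PZ f R x (H j) z₁) ∧
      it f (w' j) (PZ f R x (H j) (ζ j)) ≠ it f (w' j) (PZ f R x (H j) z₁) := by
    refine ⟨fun j => if h : ∃ v, it f v (PZ f R x (H j) (ζ j)) = it f v (PZ f R x (H j) z₁) then Nat.find h - 1 else 0, ?_⟩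
    filter_upwards [hfw, hPne] with j h1 h2
    have h : ∃ v, it f v (PZ f R x (H j) (ζ j)) = it f v (PZ f R x (H j) z₁) := ⟨_, h1⟩
    simp only [dif_pos h]
    have h3 : Nat.find h ≠ 0 := by
      intro h0
      have := Nat.find_spec h
      rw [h0] at this
      exact h2 this
    have h4 : Nat.find h ≤ w j := Nat.find_min' h h1
    refine ⟨by omega, ?_, ?_⟩
    · rw [Nat.sub_add_cancel (by omega)]
      exact Nat.find_spec h
    · exact Nat.find_min h (by omega)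
  refine ⟨w', by filter_upwards [hw'] with j hj using hj.1, ?_⟩
  intro G₁ G₂ hT₁ hT₂
  have hwt' : ∀ᶠ j in (U : Filter ℕ), w' j ≤ t j := by filter_upwards [hw', hw] with j h1 h2; omega
  have hwt : ∀ᶠ j in (U : Filter ℕ), w' j + 1 ≤ t j := by filter_upwards [hw', hw] with j h1 h2; omega
  have hPG₁ := hPG w' G₁ hwt' hT₁
  have hPG₂ := hPG (fun j => w' j + 1) G₂ hwt hT₂
  have hζt' : Tendsto ζ U (𝓝[Ω] z₂) := by
    rw [nhdsWithin_eq_nhds.2 (hΩo.mem_nhds hz₂)]; exact hζt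
  -- the values of the second limit
  have hGJe : ∀ᶠ j in (U : Filter ℕ), GJ f R x (H j) (w' j + 1) (ζ j) = GJ f R x (H j) (w' j + 1) z₁ := by
    filter_upwards [hw'] with j hj
    unfold GJ
    rw [hj.2.1]
  have hval : G₂ z₁ = G₂ z₂ := by
    have l1 : Tendsto (fun j => GJ f R x (H j) (w' j + 1) z₁) U (𝓝 (G₂ z₁)) := (hTLcv _ G₂ hT₂).tendsto_at hz₁
    have l2 : Tendsto (fun j => GJ f R x (H j) (w' j + 1) (ζ j)) U (𝓝 (G₂ z₂)) :=
      (hTLcv _ G₂ hT₂).tendsto_comp (hPG₂.dif.continuousOn z₂ hz₂) hz₂ hζt'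
    exact tendsto_nhds_unique l1 (l2.congr' hGJe)
  obtain ⟨B, hBd, hBm, -, -, hBc, hBK⟩ := hcmp (fun j => w' j + 1) w G₂ G hT₂ hTL (by filter_upwards [hw'] with j hj using hj.1)
  have hD₁ : deriv G₂ z₁ ≠ 0 := by
    intro h0
    apply hd₁
    rw [eFST_chain hΩo hBd hPG₂.dif hPG₂.map hBc hz₁, h0, mul_zero]
  have hD₂ : deriv G₂ z₂ ≠ 0 := by
    intro h0
    apply hd₂
    rw [eFST_chain hΩo hBd hPG₂.dif hPG₂.map hBc hz₂, h0, mul_zero]
  refine ⟨?_, ?_⟩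
  · obtain ⟨a', b, ha', hab, hev⟩ := hPG₂.ra z₁ hz₁ z₂ hz₂ hval hD₁ hD₂
    have ha'' : (a' : ℂ) ≠ 0 := by exact_mod_cast ha'
    obtain ⟨σ, hσ⟩ : ∃ σ : Equiv.Perm ℂ, ∀ ζ, σ ζ = (a' : ℂ) * ζ + b :=
      ⟨(Equiv.mulLeft₀ (a' : ℂ) ha'').trans (Equiv.addRight b), fun ζ => by simp⟩
    have h1 : σ ∈ DK Ω G₂ := hEXT Ω G₂ hPG₂ a' b z₁ ha' hz₁ (by rw [hab]; exact hz₂) hev σ hσ
    have h2 : σ = g := heRIG Ω G hPGG σ (hBK h1) g hg z₁ hz₁ hd₁ (by rw [hσ, hab, hz₂d])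
    rw [← h2]
    exact h1
  · intro hg₁
    obtain ⟨B₁, hBd₁, hBm₁, -, hBcv₁, hBc₁, -⟩ := hcmp w' (fun j => w' j + 1) G₁ G₂ hT₁ hT₂ (Eventually.of_forall fun j => Nat.le_succ _)
    have hGe : G₁ z₂ = G₁ z₁ := by rw [hz₂d]; exact hg₁.2.2 z₁ hz₁
    have hB' : deriv B₁ (G₁ z₁) ≠ 0 := by
      intro h0
      apply hD₁
      rw [eFST_chain hΩo hBd₁ hPG₁.dif hPG₁.map hBc₁ hz₁, h0, zero_mul]
    have l1 : Tendsto (fun j => GJ f R x (H j) (w' j) z₁) U (𝓝 (G₁ z₁)) := (hTLcv _ G₁ hT₁).tendsto_at hz₁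
    have l2 : Tendsto (fun j => GJ f R x (H j) (w' j) (ζ j)) U (𝓝 (G₁ z₁)) := by
      rw [← hGe]
      exact (hTLcv _ G₁ hT₁).tendsto_comp (hPG₁.dif.continuousOn z₂ hz₂) hz₂ hζt'
    have hdB : ∀ᶠ j in (U : Filter ℕ), DifferentiableOn ℂ (BJ f R x (H j) (w' j) (w' j + 1)) UD := by
      filter_upwards [hT₂.le] with j hj
      exact (hbj (H j) (w' j) (w' j + 1) (Nat.le_succ _) hj).1
    have hinj := heINJ U UD (fun j => BJ f R x (H j) (w' j) (w' j + 1)) B₁ (G₁ z₁) _ _ isOpen_ball (hPG₁.map hz₁) hdB hBcv₁ hB' l1 l2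
    have hF : ∀ᶠ j in (U : Filter ℕ), False := by
      filter_upwards [hinj, hT₂.le, hVζ, hV1, hw', hGJe] with j h1 h2 h3 h4 h5 h6
      obtain ⟨-, -, -, -, hB⟩ := hbj (H j) (w' j) (w' j + 1) (Nat.le_succ _) h2
      have k1 := hB _ h3
      have k2 := hB _ h4
      have h7 := h1 (by
        show BJ f R x (H j) (w' j) (w' j + 1) (GJ f R x (H j) (w' j) z₁) = BJ f R x (H j) (w' j) (w' j + 1) (GJ f R x (H j) (w' j) (ζ j))
        rw [← k1.2.2, ← k2.2.2, h6])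
      apply h5.2.2
      rw [← k1.2.1, ← k2.2.1]
      have h8 : GJ f R x (H j) (w' j) z₁ = GJ f R x (H j) (w' j) (ζ j) := h7
      rw [h8]
    obtain ⟨j, hj⟩ := hF.exists
    exact hj

end PL
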