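import Pool.Agent.helper25.PL.SpecA

/-! Row APL of block A of project pl (see Pool/Agent/helper25/PL/SpecA.lean). -/

set_option autoImplicit false

open Complex Metric Set Filter Topology MeasureTheory
open Pool.Agent.helper98.ILF
open WP (it)
open HY (UD T S hd UN RM)
open PM

noncomputable section

namespace PL

open Classical in
/-- the sum over the critical points. -/
theorem APL_sum (f : Polynomial ℂ) (R : ℝ) (k t : ℕ) (p b : ℂ) (u s X : ℝ) (hX : 0 ≤ X)
    (h : ∀ c ∈ CP f, c ∈ JJ f → ((((Finset.range t).filter (fun i => u ≤ 1 - pd (VC f R (k + t - i) (it f i p)) (it f i p) c ∧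
      s ≤ 1 - pd (VC f R k b) b (it f (t - i) c))).card : ℕ) : ℝ) ≤ X) :
    ((((RL f R k t b 1).filter (fun y => y.2 ∈ JJ f ∧ u ≤ gg f R k t p y ∧
      s ≤ 1 - pd (VC f R k b) b (it f (t - y.1) y.2))).card : ℕ) : ℝ) ≤ ((CP f).card + 1) * X := by
  set S := ((RL f R k t b 1).filter (fun x => x.2 ∈ JJ f ∧ u ≤ gg f R k t p x ∧
    s ≤ 1 - pd (VC f R k b) b (it f (t - x.1) x.2))) with hS
  set A : ℂ → Finset ℕ := fun c => (Finset.range t).filter (fun i => u ≤ 1 - pd (VC f R (k + t - i) (it f i p)) (it f i p) c ∧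
    s ≤ 1 - pd (VC f R k b) b (it f (t - i) c)) with hA
  have hsub : S ⊆ ((CP f).filter (fun c => c ∈ JJ f)).biUnion (fun c => (A c).image (fun i => (i, c))) := by
    intro x hx
    rw [hS, Finset.mem_filter] at hx
    obtain ⟨hxR, hxJ, hxg, hxs⟩ := hx
    have hxR' : x ∈ (Finset.range t ×ˢ CP f).filter (fun x => pd (VC f R k b) b (it f (t - x.1) x.2) < 1) := hxR
    rw [Finset.mem_filter, Finset.mem_product] at hxR'
    rw [Finset.mem_biUnion]
    refine ⟨x.2, Finset.mem_filter.mpr ⟨hxR'.1.2, hxJ⟩, ?_⟩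
    rw [Finset.mem_image]
    refine ⟨x.1, ?_, rfl⟩
    rw [hA]
    exact Finset.mem_filter.mpr ⟨hxR'.1.1, hxg, hxs⟩
  have hcard : S.card ≤ ∑ c ∈ (CP f).filter (fun c => c ∈ JJ f), (A c).card := by
    refine le_trans (Finset.card_le_card hsub) (le_trans Finset.card_biUnion_le ?_)
    exact Finset.sum_le_sum fun c _ => Finset.card_image_le
  have hterm : ∀ c ∈ (CP f).filter (fun c => c ∈ JJ f), ((A c).card : ℝ) ≤ X := by
    intro c hc
    rw [Finset.mem_filter] at hc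
    exact h c hc.1 hc.2
  calc (S.card : ℝ) ≤ ((∑ c ∈ (CP f).filter (fun c => c ∈ JJ f), (A c).card : ℕ) : ℝ) := by exact_mod_cast hcard
    _ = ∑ c ∈ (CP f).filter (fun c => c ∈ JJ f), ((A c).card : ℝ) := by push_cast; rfl
    _ ≤ ∑ _c ∈ (CP f).filter (fun c => c ∈ JJ f), X := Finset.sum_le_sum hterm
    _ = (((CP f).filter (fun c => c ∈ JJ f)).card : ℝ) * X := by rw [Finset.sum_const, nsmul_eq_mul]
    _ ≤ ((CP f).card + 1 : ℝ) * X := by
        apply mul_le_mul_of_nonneg_right _ hX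
        have h1 : (((CP f).filter (fun c => c ∈ JJ f)).card : ℝ) ≤ ((CP f).card : ℝ) := by
          exact_mod_cast Finset.card_filter_le _ _
        linarith

theorem APL (hASQ : ASQ_stmt) (hAEU : AEU_stmt) (hVCR : VCR_stmt) (hAPO : APO_stmt) (hANZ : ANZ_stmt) : APL_stmt := by
  intro f R δ e₀ d₀ k₀ hS μ x hT a b₀ ha hb₀
  obtain ⟨K, hK⟩ := hAEU
  obtain ⟨κ₀, hκ₀, hκ⟩ := hVCR f R δ e₀ d₀ k₀ hS
  obtain ⟨δL, cL, k₁, hL0, hL1, hc0, hc1, hSQ, hLQ⟩ := hASQ f R δ e₀ d₀ k₀ hS μ x hT a b₀ ha hb₀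
  have hK1 := hK.1
  have hK0 : 0 < K := by linarith
  obtain ⟨κ, hκd⟩ : ∃ κ, κ = min κ₀ 1 := ⟨_, rfl⟩
  have hκp : 0 < κ := by rw [hκd]; exact lt_min hκ₀ one_pos
  obtain ⟨δ₁, hδ₁⟩ : ∃ δ₁, δ₁ = min (b₀ / 8) (κ * δL / K ^ 2) := ⟨_, rfl⟩
  have hδ₁p : 0 < δ₁ := by rw [hδ₁]; exact lt_min (by positivity) (by positivity)
  have hP : PRM f R K κ δL cL b₀ δ₁ (δ₁ / (4 * K ^ 2)) :=
    { eu := hK
      κ0 := hκp
      κ1 := by rw [hκd]; exact min_le_right _ _
      vcr := by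
        intro k y hy
        refine le_trans ?_ (hκ k y hy)
        apply mul_le_mul_of_nonneg_right _ (norm_nonneg _)
        rw [hκd]
        exact min_le_left _ _
      L0 := hL0
      L1 := hL1
      c0 := hc0
      c1 := hc1
      b0 := hb₀
      d0 := by positivity
      d2 := by
        apply le_of_eq
        field_simp
      d1 := by
        have h1 : δ₁ ≤ κ * δL / K ^ 2 := by rw [hδ₁]; exact min_le_right _ _
        rw [le_div_iff₀ (by positivity)] at h1
        linarith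
      db := by
        have h1 : δ₁ ≤ b₀ / 8 := by rw [hδ₁]; exact min_le_left _ _
        linarith }
  obtain ⟨η, hη, hA⟩ := hAPO f R δ e₀ d₀ k₀ hS K κ δL cL b₀ δ₁ _ hP
  obtain ⟨ε, hε, hLε⟩ := hLQ η hη
  obtain ⟨C, θ, E, hC, hθ0, hθ1, hB⟩ := hA ε hε
  refine ⟨C * ((CP f).card + 1), θ, b₀ / 8, E, k₁, by positivity, hθ0, hθ1, by positivity, ?_⟩
  intro k hk t hLO p hp hpV hpx hpb
  have h1 := hSQ k hk t hLO p hp hpV hpx hpb
  have h2 := hLε k t hLO p hp hpV hpx
  refine ⟨?_, ?_⟩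
  · intro i hi c hc
    have := hANZ f R δ e₀ d₀ k₀ hS δL cL b₀ hb₀ k t p h1 i hi c hc
    linarith
  · intro b u s hu hu1 hs hs1
    have hX : (0 : ℝ) ≤ C * u ^ (-θ) * (1 / s) ^ E := by positivity
    have key := APL_sum f R k t p b u s _ hX (by
      intro c hc hcJ
      have h3 := hB k t p h1 h2 b c hc hcJ u s hu hu1 hs hs1
      refine le_trans ?_ h3
      have h4 : ∀ (d : DecidablePred (fun i => u ≤ 1 - pd (VC f R (k + t - i) (it f i p)) (it f i p) c ∧
          s ≤ 1 - pd (VC f R k b) b (it f (t - i) c))) (d' : DecidablePred (fun i => u ≤ 1 - pd (VC f R (k + t - i) (it f i p)) (it f i p) c ∧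
          s ≤ 1 - pd (VC f R k b) b (it f (t - i) c))), (@Finset.filter ℕ _ d (Finset.range t)).card ≤ (@Finset.filter ℕ _ d' (Finset.range t)).card := by
        intro d d'
        apply Finset.card_le_card
        intro i hi
        exact (@Finset.mem_filter ℕ _ d' _ i).2 ((@Finset.mem_filter ℕ _ d _ i).1 hi)
      exact Nat.cast_le.2 (h4 _ _))
    refine le_trans key (le_of_eq ?_)
    ring

end PL
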