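import Pool.Agent.helper68.PL.SpecB

/-! Row LFT of block B of project pl (see Pool/Agent/helper68/PL/SpecB.lean). -/

set_option autoImplicit false

open Complex Metric Set Filter Topology MeasureTheory
open Pool.Agent.helper98.ILF
open WP (it)
open HY (UD T S hd UN RM)
open PM

noncomputable section

namespace PL

/-- differentiability of the iterates. -/
theorem LFT_dit (f : Polynomial ℂ) : ∀ s : ℕ, Differentiable ℂ (it f s) := by
  intro s
  induction s with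
  | zero => exact differentiable_id
  | succ s ih =>
    have e : it f (s + 1) = fun z => f.eval (it f s z) := by
      funext z
      simp [it, Function.iterate_succ_apply']
    rw [e]
    exact f.differentiable.comp ih

theorem LFT (hLFP : LFP_stmt) (hVFC : VFC_stmt) (hTPM : TPM_stmt) (hTDF : TDF_stmt) (hVCF : VCF_stmt) : LFT_stmt := by
  intro f R δ e₀ d₀ k₀ hS x hx a η ha hη
  obtain ⟨ε, hε, hL⟩ := hLFP a η ha hη
  refine ⟨ε, hε, ?_⟩
  rintro n s ⟨z, hz, hzp, hza⟩ p hp hpp y hy hyε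
  have hER : ER f R := ⟨hS.R1, hS.esc⟩
  have hxV : x ∈ VK f R (n + s) := hS.Jv x hx _
  obtain ⟨hDW, hxW, -, -, -, -, hmap, -⟩ := hVCF f R hS.deg hER (n + s) x hxV
  have hqm : it f s x ∈ VC f R n (it f s x) := by
    have := hmap s (by omega) hxW
    rwa [Nat.add_sub_cancel] at this
  have hqV : it f s x ∈ VK f R n := connectedComponentIn_subset _ _ hqm
  obtain ⟨hDW', -, -⟩ := hVCF f R hS.deg hER n (it f s x) hqV
  obtain ⟨W, hW⟩ : ∃ W, W = VC f R (n + s) x := ⟨_, rfl⟩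
  obtain ⟨W', hW'⟩ : ∃ W', W' = VC f R n (it f s x) := ⟨_, rfl⟩
  obtain ⟨hFd, hFm, -, hFc, -⟩ := hVFC f R hS.deg hER n s x hxV (it f s x) hqm
  obtain ⟨F, hF⟩ : ∃ F, F = FC f R n s x (it f s x) := ⟨_, rfl⟩
  rw [← hF] at hFd hFm hFc
  rw [← hW] at hz hzp hza hp hpp hFc hDW hxW ⊢
  rw [← hW'] at hza hy hyε hDW' hFc hqm
  obtain ⟨hWo, -, hWt⟩ := hTDF W hDW
  obtain ⟨hRM, -, -, -, -, hWb, hWx⟩ := hWt x hxW
  obtain ⟨hWo', -, hWt'⟩ := hTDF W' hDW'
  obtain ⟨hRM', -, -, -, -, hWb', hWx'⟩ := hWt' _ hqm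
  obtain ⟨-, hP⟩ := hTPM W x (rm W x) hRM
  obtain ⟨-, hP'⟩ := hTPM W' (it f s x) (rm W' (it f s x)) hRM'
  obtain ⟨hu1, hu2, hu3, -⟩ := hWb z hz
  obtain ⟨hv1, hv2, hv3, -⟩ := hWb p hp
  obtain ⟨hy1, hy2, -⟩ := hWb' y hy
  obtain ⟨u, hu⟩ : ∃ u, u = cx W x z := ⟨_, rfl⟩
  obtain ⟨v, hv⟩ : ∃ v, v = cx W x p := ⟨_, rfl⟩
  obtain ⟨yy, hyy⟩ : ∃ yy, yy = cx W' (it f s x) y := ⟨_, rfl⟩
  rw [← hu] at hu1 hu2 hu3
  rw [← hv] at hv1 hv2 hv3
  rw [← hyy] at hy1 hy2
  have hUo : IsOpen UD := isOpen_ball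
  -- the hyperbolic derivative
  have hhq : hq F u = hdf (it f s) W W' z := by
    have e1 : (fun t => rm W' (it f s x) (F t)) =ᶠ[𝓝 u] (fun t => it f s (rm W x t)) := by
      filter_upwards [hUo.mem_nhds hu1] with t ht using hFc t ht
    have d1 : HasDerivAt (fun t => rm W' (it f s x) (F t)) (deriv (rm W' (it f s x)) (F u) * deriv F u) u := by
      have h1 : HasDerivAt (rm W' (it f s x)) (deriv (rm W' (it f s x)) (F u)) (F u) :=
        (hRM'.dif.differentiableAt (hUo.mem_nhds (hFm hu1))).hasDerivAt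
      have h2 : HasDerivAt F (deriv F u) u := (hFd.differentiableAt (hUo.mem_nhds hu1)).hasDerivAt
      exact h1.comp u h2
    have d2 : HasDerivAt (fun t => it f s (rm W x t)) (deriv (it f s) (rm W x u) * deriv (rm W x) u) u := by
      have h1 : HasDerivAt (it f s) (deriv (it f s) (rm W x u)) (rm W x u) := (LFT_dit f s _).hasDerivAt
      have h2 : HasDerivAt (rm W x) (deriv (rm W x) u) u := (hRM.dif.differentiableAt (hUo.mem_nhds hu1)).hasDerivAt
      exact h1.comp u h2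
    have e2 : deriv (rm W' (it f s x)) (F u) * deriv F u = deriv (it f s) (rm W x u) * deriv (rm W x) u := by
      rw [← d1.deriv, ← d2.deriv]; exact e1.deriv_eq
    have c1 := (hP u hu1).1
    have c2 := (hP' (F u) (hFm hu1)).1
    rw [hFc u hu1, hu2] at c2
    rw [hu2] at c1 e2
    have n0 : ‖deriv (rm W' (it f s x)) (F u)‖ ≠ 0 := norm_ne_zero_iff.2 (hWx' (F u) (hFm hu1)).2.2.2
    have n1 : 1 - ‖F u‖ ^ 2 ≠ 0 := by
      have : ‖F u‖ < 1 := by simpa [UD] using hFm hu1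
      nlinarith [norm_nonneg (F u)]
    have e3 := congrArg norm e2
    rw [norm_mul, norm_mul] at e3
    unfold hq hdf
    rw [c1, c2, div_eq_div_iff n1 (mul_ne_zero n0 n1)]
    linear_combination (1 - ‖u‖ ^ 2) * (1 - ‖F u‖ ^ 2) * e3
  have hT : ‖T (F v) yy‖ < ε := by
    have := (hP' (F v) (hFm hv1)).2 yy hy1
    rw [hFc v hv1, hv2, hy2] at this
    rw [← this]
    exact hyε
  obtain ⟨w, hw, hwT, hwF⟩ := hL F hFd hFm u v (by rw [← hu3]; exact hzp) (by rw [hhq]; exact hza) (by rw [← hv3]; exact hpp) yy hy1 hT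
  refine ⟨rm W x w, (hWx w hw).1, ?_, ?_⟩
  · have := (hP v hv1).2 w hw
    rw [hv2] at this
    rw [this]
    exact hwT
  · rw [← hFc w hw, hwF, hy2]

end PL
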