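import Pool.Agent.helper94.PL.Spec

set_option autoImplicit false

open Complex Metric Set Filter Topology MeasureTheory MPS
open Pool.Agent.helper16.Multibrot

noncomputable section

namespace PLY

theorem KOE_taylor (F : ℂ → ℂ) (z : ℂ) (hF : Differentiable ℂ F) :
    ∃ C : ℝ, 0 ≤ C ∧ ∀ y ∈ closedBall z 1,
      ‖F y - F z - deriv F z * (y - z)‖ ≤ C * ‖y - z‖ ^ 2 := by
  have h1 : Differentiable ℂ (dslope F z) := by
    rw [← differentiableOn_univ]
    exact (Complex.differentiableOn_dslope univ_mem).2 hF.differentiableOn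
  have h2 : Differentiable ℂ (dslope (dslope F z) z) := by
    rw [← differentiableOn_univ]
    exact (Complex.differentiableOn_dslope univ_mem).2 h1.differentiableOn
  obtain ⟨C, hC⟩ := (isCompact_closedBall z (1 : ℝ)).exists_bound_of_continuousOn
    h2.continuous.continuousOn
  refine ⟨max C 0, le_max_right _ _, ?_⟩
  intro y hy
  have e1 : (y - z) * dslope F z y = F y - F z := by
    have := sub_smul_dslope F z y
    simpa [smul_eq_mul] using this
  have e2 : (y - z) * dslope (dslope F z) z y = dslope F z y - deriv F z := by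
    have := sub_smul_dslope (dslope F z) z y
    rw [dslope_same] at this
    simpa [smul_eq_mul] using this
  have e3 : F y - F z - deriv F z * (y - z) = (y - z) ^ 2 * dslope (dslope F z) z y := by
    linear_combination (-1 : ℂ) * e1 - (y - z) * e2
  rw [e3, norm_mul, norm_pow, mul_comm]
  apply mul_le_mul_of_nonneg_right _ (by positivity)
  exact le_trans (hC y hy) (le_max_left _ _)

theorem KOE_data (F : ℂ → ℂ) (z μ : ℂ) (hF : Differentiable ℂ F) (hz : F z = z)
    (hμ : deriv F z = μ) (h1 : 1 < ‖μ‖) :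
    ∃ (g : ℂ → ℂ) (r κ C : ℝ), 0 < r ∧ 0 < κ ∧ κ < 1 ∧ ‖μ‖ * κ ^ 2 < 1 ∧ 0 ≤ C ∧ g z = z ∧
      DifferentiableOn ℂ g (ball z r) ∧ (∀ x ∈ ball z r, ‖g x - z‖ ≤ κ * ‖x - z‖) ∧
      (∀ x ∈ ball z r, g (F x) = x) ∧
      (∀ x ∈ ball z r, ‖μ * (g x - z) - (x - z)‖ ≤ C * ‖x - z‖ ^ 2) := by
  have hm0 : 0 < ‖μ‖ := by linarith
  have hμ0 : μ ≠ 0 := norm_pos_iff.1 hm0
  have hFa : AnalyticAt ℂ F z := hF.analyticAt z
  have hμ0' : deriv F z ≠ 0 := by rw [hμ]; exact hμ0
  have hsd := hFa.hasStrictDerivAt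
  let g : ℂ → ℂ := hsd.localInverse _ _ _ hμ0'
  have hgz : g z = z := by
    have : g (F z) = z := HasStrictFDerivAt.localInverse_apply_image ..
    rwa [hz] at this
  have hga : AnalyticAt ℂ g z := by
    have := hFa.analyticAt_localInverse hμ0'
    rwa [hz] at this
  have hgd : HasStrictDerivAt g μ⁻¹ z := by
    have h : HasStrictDerivAt g (deriv F z)⁻¹ (F z) := hsd.to_localInverse hμ0'
    have e : (deriv F z)⁻¹ = μ⁻¹ := by rw [hμ]
    rw [hz] at h
    exact e ▸ h
  have hl : ∀ᶠ x in 𝓝 z, g (F x) = x := hsd.eventually_left_inverse hμ0'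
  have hr : ∀ᶠ x in 𝓝 z, F (g x) = x := by
    have := hsd.eventually_right_inverse hμ0'
    rwa [hz] at this
  -- choice of κ
  have hs1 : 1 < Real.sqrt ‖μ‖ := by
    rw [show (1 : ℝ) = Real.sqrt 1 by simp]
    exact Real.sqrt_lt_sqrt (by norm_num) h1
  have hss : Real.sqrt ‖μ‖ * Real.sqrt ‖μ‖ = ‖μ‖ := Real.mul_self_sqrt hm0.le
  have hlt : ‖μ‖⁻¹ < (Real.sqrt ‖μ‖)⁻¹ := by
    apply inv_strictAnti₀ (by linarith)
    nlinarith
  obtain ⟨κ, hκ1, hκ2⟩ := exists_between hlt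
  have hκ0 : 0 < κ := lt_trans (inv_pos.2 hm0) hκ1
  have hs0 : 0 < Real.sqrt ‖μ‖ := by linarith
  have hκs : κ * Real.sqrt ‖μ‖ < 1 := by
    rw [lt_inv_comm₀ hκ0 hs0] at hκ2
    calc κ * Real.sqrt ‖μ‖ < κ * κ⁻¹ := mul_lt_mul_of_pos_left hκ2 hκ0
      _ = 1 := mul_inv_cancel₀ hκ0.ne'
  have hκlt1 : κ < 1 := by nlinarith
  have hκm : ‖μ‖ * κ ^ 2 < 1 := by
    have e : ‖μ‖ * κ ^ 2 = (κ * Real.sqrt ‖μ‖) * (κ * Real.sqrt ‖μ‖) := by
      calc ‖μ‖ * κ ^ 2 = (Real.sqrt ‖μ‖ * Real.sqrt ‖μ‖) * κ ^ 2 := by rw [hss]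
        _ = _ := by ring
    rw [e]
    have h0 : 0 ≤ κ * Real.sqrt ‖μ‖ := by positivity
    nlinarith
  obtain ⟨C, hC0, hC⟩ := KOE_taylor F z hF
  -- contraction
  have hcon : ∀ᶠ x in 𝓝 z, ‖g x - z‖ ≤ κ * ‖x - z‖ := by
    have ho := (hasDerivAt_iff_isLittleO.1 hgd.hasDerivAt).def (c := κ - ‖μ‖⁻¹) (by linarith)
    filter_upwards [ho] with x hx
    rw [hgz] at hx
    have e : g x - z = (g x - z - (x - z) • μ⁻¹) + (x - z) • μ⁻¹ := by ring
    rw [e]
    calc ‖(g x - z - (x - z) • μ⁻¹) + (x - z) • μ⁻¹‖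
        ≤ ‖g x - z - (x - z) • μ⁻¹‖ + ‖(x - z) • μ⁻¹‖ := norm_add_le _ _
      _ ≤ (κ - ‖μ‖⁻¹) * ‖x - z‖ + ‖x - z‖ * ‖μ‖⁻¹ := by
          apply add_le_add hx
          rw [norm_smul, norm_inv]
      _ = κ * ‖x - z‖ := by ring
  have hdiff : ∀ᶠ x in 𝓝 z, DifferentiableAt ℂ g x := by
    filter_upwards [hga.eventually_analyticAt] with x hx
    exact hx.differentiableAt
  have hall := hl.and (hr.and (hcon.and hdiff))
  obtain ⟨r0, hr0, hb⟩ := Metric.eventually_nhds_iff_ball.1 hall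
  refine ⟨g, min r0 1, κ, C, lt_min hr0 one_pos, hκ0, hκlt1, hκm, hC0, hgz, ?_, ?_, ?_, ?_⟩
  · intro x hx
    exact ((hb x (ball_subset_ball (min_le_left _ _) hx)).2.2.2).differentiableWithinAt
  · intro x hx
    exact (hb x (ball_subset_ball (min_le_left _ _) hx)).2.2.1
  · intro x hx
    exact (hb x (ball_subset_ball (min_le_left _ _) hx)).1
  · intro x hx
    have h2 := (hb x (ball_subset_ball (min_le_left _ _) hx)).2.1
    have h3 := (hb x (ball_subset_ball (min_le_left _ _) hx)).2.2.1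
    have hx1 : ‖x - z‖ < 1 := by
      have := ball_subset_ball (min_le_right _ _) hx
      rwa [mem_ball, dist_eq_norm] at this
    have h4 : ‖g x - z‖ ≤ ‖x - z‖ := by
      refine le_trans h3 ?_
      nlinarith [norm_nonneg (x - z)]
    have h5 := hC (g x) (by rw [mem_closedBall, dist_eq_norm]; linarith)
    rw [h2, hz, hμ] at h5
    rw [norm_sub_rev]
    calc ‖x - z - μ * (g x - z)‖ ≤ C * ‖g x - z‖ ^ 2 := h5
      _ ≤ C * ‖x - z‖ ^ 2 := by
        apply mul_le_mul_of_nonneg_left _ hC0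
        exact pow_le_pow_left₀ (norm_nonneg _) h4 2

theorem KOE : KOE_stmt := by
  intro F z μ hF hz hμ h1
  obtain ⟨g, r, κ, C, hr, hκ0, hκ1, hκm, hC0, hgz, hgd, hcon, hl, hT⟩ := KOE_data F z μ hF hz hμ h1
  have hm0 : 0 < ‖μ‖ := by linarith
  have hμ0 : μ ≠ 0 := norm_pos_iff.1 hm0
  have hmaps : MapsTo g (ball z r) (ball z r) := by
    intro x hx
    rw [mem_ball, dist_eq_norm] at hx ⊢
    have := hcon x (by rw [mem_ball, dist_eq_norm]; exact hx)
    nlinarith [norm_nonneg (x - z)]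
  have hit : ∀ j : ℕ, MapsTo g^[j] (ball z r) (ball z r) := fun j => hmaps.iterate j
  have hitb : ∀ j : ℕ, ∀ x ∈ ball z r, ‖g^[j] x - z‖ ≤ κ ^ j * ‖x - z‖ := by
    intro j
    induction j with
    | zero => intro x _; simp
    | succ j ih =>
      intro x hx
      rw [Function.iterate_succ_apply']
      calc ‖g (g^[j] x) - z‖ ≤ κ * ‖g^[j] x - z‖ := hcon _ (hit j hx)
        _ ≤ κ * (κ ^ j * ‖x - z‖) := mul_le_mul_of_nonneg_left (ih x hx) hκ0.le
        _ = κ ^ (j + 1) * ‖x - z‖ := by ring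
  let L : ℕ → ℂ → ℂ := fun j x => μ ^ j * (g^[j] x - z)
  let D : ℕ → ℂ → ℂ := fun j x => L (j + 1) x - L j x
  have hDb : ∀ j : ℕ, ∀ x ∈ ball z r, ‖D j x‖ ≤ C * (‖μ‖ * κ ^ 2) ^ j * ‖x - z‖ ^ 2 := by
    intro j x hx
    have e : D j x = μ ^ j * (μ * (g (g^[j] x) - z) - (g^[j] x - z)) := by
      simp only [D, L, Function.iterate_succ_apply']
      ring
    rw [e, norm_mul, norm_pow]
    calc ‖μ‖ ^ j * ‖μ * (g (g^[j] x) - z) - (g^[j] x - z)‖
        ≤ ‖μ‖ ^ j * (C * ‖g^[j] x - z‖ ^ 2) :=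
          mul_le_mul_of_nonneg_left (hT _ (hit j hx)) (by positivity)
      _ ≤ ‖μ‖ ^ j * (C * (κ ^ j * ‖x - z‖) ^ 2) := by
          apply mul_le_mul_of_nonneg_left _ (by positivity)
          apply mul_le_mul_of_nonneg_left _ hC0
          exact pow_le_pow_left₀ (norm_nonneg _) (hitb j x hx) 2
      _ = C * (‖μ‖ * κ ^ 2) ^ j * ‖x - z‖ ^ 2 := by
          rw [mul_pow, mul_pow, ← pow_mul, ← pow_mul, mul_comm j 2]; ring
  have hq0 : 0 ≤ ‖μ‖ * κ ^ 2 := by positivity
  have hgeo : Summable (fun j : ℕ => (‖μ‖ * κ ^ 2) ^ j) := summable_geometric_of_lt_one hq0 hκm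
  have hsumu : Summable (fun j : ℕ => C * (‖μ‖ * κ ^ 2) ^ j * r ^ 2) :=
    (hgeo.mul_left C).mul_right (r ^ 2)
  have hDbr : ∀ j : ℕ, ∀ x ∈ ball z r, ‖D j x‖ ≤ C * (‖μ‖ * κ ^ 2) ^ j * r ^ 2 := by
    intro j x hx
    refine le_trans (hDb j x hx) ?_
    rw [mem_ball, dist_eq_norm] at hx
    apply mul_le_mul_of_nonneg_left _ (by positivity)
    exact pow_le_pow_left₀ (norm_nonneg _) hx.le 2
  have hLd : ∀ j : ℕ, DifferentiableOn ℂ (L j) (ball z r) := by
    intro j
    have := hgd.iterate hmaps j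
    exact (this.sub_const z).const_mul _
  have hDd : ∀ j : ℕ, DifferentiableOn ℂ (D j) (ball z r) := fun j => (hLd (j + 1)).sub (hLd j)
  let lam : ℂ → ℂ := fun x => (x - z) + ∑' j, D j x
  have hlamd : DifferentiableOn ℂ lam (ball z r) := by
    apply DifferentiableOn.add
    · fun_prop
    · exact differentiableOn_tsum_of_summable_norm hsumu hDd isOpen_ball hDbr
  have hsD : ∀ x ∈ ball z r, Summable (fun j => D j x) := by
    intro x hx
    exact Summable.of_norm_bounded hsumu (fun j => hDbr j x hx)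
  have hlim : ∀ x ∈ ball z r, Tendsto (fun j => L j x) atTop (𝓝 (lam x)) := by
    intro x hx
    have h := (hsD x hx).hasSum.tendsto_sum_nat
    have h2 := h.const_add (x - z)
    refine h2.congr ?_
    intro n
    have : ∑ i ∈ Finset.range n, D i x = L n x - L 0 x :=
      Finset.sum_range_sub (fun i => L i x) n
    rw [this]
    simp [L]
  have hz0 : lam z = 0 := by
    have h := hlim z (mem_ball_self hr)
    have h0 : ∀ j, L j z = 0 := by
      intro j
      have : g^[j] z = z := Function.iterate_fixed hgz j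
      simp [L, this]
    simp only [h0] at h
    exact (tendsto_nhds_unique h tendsto_const_nhds)
  -- quadratic estimate
  have hquad : ∀ x ∈ ball z r, ‖lam x - (x - z)‖ ≤ (∑' j : ℕ, C * (‖μ‖ * κ ^ 2) ^ j) * ‖x - z‖ ^ 2 := by
    intro x hx
    have e : lam x - (x - z) = ∑' j, D j x := by simp [lam]
    rw [e]
    have hs : Summable (fun j : ℕ => C * (‖μ‖ * κ ^ 2) ^ j * ‖x - z‖ ^ 2) :=
      (hgeo.mul_left C).mul_right _
    rw [← tsum_mul_right]
    exact tsum_of_norm_bounded hs.hasSum (fun j => hDb j x hx)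
  set K : ℝ := ∑' j : ℕ, C * (‖μ‖ * κ ^ 2) ^ j with hK
  have hder : HasDerivAt lam 1 z := by
    rw [hasDerivAt_iff_isLittleO]
    have hO : (fun x => lam x - lam z - (x - z) • (1 : ℂ)) =O[𝓝 z] fun x => (x - z) ^ 2 := by
      refine Asymptotics.IsBigO.of_bound K ?_
      filter_upwards [isOpen_ball.mem_nhds (mem_ball_self hr)] with x hx
      rw [hz0, norm_pow]
      have := hquad x hx
      simpa using this
    refine hO.trans_isLittleO ?_
    have h2 : (fun x : ℂ => (x - z) ^ 2) =o[𝓝 z] fun x => (x - z) ^ 1 := by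
      have h3 : (fun y : ℂ => y ^ 2) =o[𝓝 0] fun y => y ^ 1 :=
        Asymptotics.isLittleO_pow_pow (by norm_num)
      have h4 : Tendsto (fun x : ℂ => x - z) (𝓝 z) (𝓝 0) := by
        have hc : Continuous (fun x : ℂ => x - z) := by fun_prop
        have := hc.tendsto z
        simpa using this
      exact h3.comp_tendsto h4
    simpa using h2
  have hstrict : HasStrictDerivAt lam 1 z := by
    have ha : AnalyticAt ℂ lam z := hlamd.analyticAt (isOpen_ball.mem_nhds (mem_ball_self hr))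
    have := ha.hasStrictDerivAt
    rwa [hder.deriv] at this
  have hinj := hstrict.eventually_left_inverse one_ne_zero
  obtain ⟨r1, hr1, hb1⟩ := Metric.eventually_nhds_iff_ball.1 hinj
  refine ⟨min r r1, lt_min hr hr1, lam, hlamd.mono (ball_subset_ball (min_le_left _ _)), ?_, hz0, ?_⟩
  · intro x hx y hy hxy
    have e1 := hb1 x (ball_subset_ball (min_le_right _ _) hx)
    have e2 := hb1 y (ball_subset_ball (min_le_right _ _) hy)
    rw [← e1, ← e2, hxy]
  · intro x hx hFx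
    have hx' := ball_subset_ball (min_le_left _ _) hx
    have hFx' := ball_subset_ball (min_le_left _ _) hFx
    have l1 := (hlim (F x) hFx').comp (tendsto_add_atTop_nat 1)
    have l2 := (hlim x hx').const_mul μ
    have e : ∀ j, L (j + 1) (F x) = μ * L j x := by
      intro j
      simp only [L, Function.iterate_succ_apply, hl x hx']
      ring
    have l1' : Tendsto (fun j => μ * L j x) atTop (𝓝 (lam (F x))) := by
      refine l1.congr ?_
      intro j
      exact e j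
    exact tendsto_nhds_unique l1' l2

end PLY
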